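import Mathlib

/-!
For every forest the four skew forcing and skew forcing irredundance parameters coincide; their
common value is the nullity of the adjacency matrix.
-/

namespace Pool.Agent.Results.MP_aa1485_co.Forests

open SimpleGraph Module

/-- The vertices that are eventually blue under the skew forcing rule, starting from `S`: if all
neighbours of some vertex `u` other than the neighbour `w` are blue, then `w` becomes blue. -/
inductive Blue {V : Type} (G : SimpleGraph V) (S : Set V) : V → Prop
  | base (v : V) (hv : v ∈ S) : Blue G S v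
  | force (u w : V) (huw : G.Adj u w) (h : ∀ x, G.Adj u x → x ≠ w → Blue G S x) : Blue G S w

/-- Skew forcing sets. -/
def IsSkewForcing {V : Type} (G : SimpleGraph V) (S : Set V) : Prop := ∀ v, Blue G S v

/-- Skew forts: nonempty sets that no vertex meets in exactly one neighbour. -/
def IsSkewFort {V : Type} (G : SimpleGraph V) (F : Set V) : Prop :=
  F.Nonempty ∧ ∀ v, (G.neighborSet v ∩ F).ncard ≠ 1

/-- Sets in which every vertex has a private skew fort. -/
def IsIrSet {V : Type} (G : SimpleGraph V) (S : Set V) : Prop :=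
  ∀ u ∈ S, ∃ F, IsSkewFort G F ∧ F ∩ S = {u}

/-- The skew forcing number. -/
noncomputable def zMinus {V : Type} (G : SimpleGraph V) : ℕ :=
  sInf {k | ∃ S : Set V, IsSkewForcing G S ∧ S.ncard = k}

/-- The upper skew forcing number. -/
noncomputable def zMinusUpper {V : Type} (G : SimpleGraph V) : ℕ :=
  sSup {k | ∃ S : Set V, Minimal (IsSkewForcing G) S ∧ S.ncard = k}

/-- The lower skew forcing irredundance number. -/
noncomputable def zMinusIrLower {V : Type} (G : SimpleGraph V) : ℕ :=
  sInf {k | ∃ S : Set V, Maximal (IsIrSet G) S ∧ S.ncard = k}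

/-- The upper skew forcing irredundance number. -/
noncomputable def zMinusIrUpper {V : Type} (G : SimpleGraph V) : ℕ :=
  sSup {k | ∃ S : Set V, Maximal (IsIrSet G) S ∧ S.ncard = k}

/-! ### Distances in forests -/

theorem dist_step {V : Type} {G : SimpleGraph V} (hG : G.IsAcyclic) {w c b b' : V}
    (hr : G.Reachable w c) (hb : G.Adj c b) (hb' : G.Adj c b') (hne : b ≠ b')
    (hd : G.dist w c = G.dist w b + 1) : G.dist w b' = G.dist w c + 1 := by
  classical
  have hrb : G.Reachable w b := hr.trans hb.reachable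
  have hrb' : G.Reachable w b' := hr.trans hb'.reachable
  obtain ⟨q, hq, hql⟩ := hrb.exists_path_of_dist
  obtain ⟨p, hp, hpl⟩ := hrb'.exists_path_of_dist
  have hle : G.dist w b' ≤ G.dist w c + 1 := by
    obtain ⟨s, hs⟩ := hr.exists_walk_length_eq_dist
    have := dist_le (s.concat hb')
    rw [Walk.length_concat, hs] at this
    exact this
  by_contra hcon
  have hlt : G.dist w b' ≤ G.dist w c := by omega
  have hcp : c ∉ p.support := by
    intro h
    have h1 := Walk.length_takeUntil_lt_length h hb'.ne
    have h2 := dist_le (p.takeUntil c h)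
    omega
  have hcq : c ∉ q.support := by
    intro h
    have h1 := Walk.length_takeUntil_lt_length h hb.ne
    have h2 := dist_le (q.takeUntil c h)
    omega
  have hP := hp.concat hcp hb'.symm
  have hQ := hq.concat hcq hb.symm
  have heq : q.concat hb.symm = p.concat hb'.symm := congrArg Subtype.val
    ((hG.subsingleton_path w c).elim ⟨_, hQ⟩ ⟨_, hP⟩)
  have h3 := congrArg Walk.penultimate heq
  rw [Walk.penultimate_concat, Walk.penultimate_concat] at h3
  exact hne h3

section forest

variable {V : Type} [Fintype V] [DecidableEq V] (G : SimpleGraph V) [DecidableRel G.Adj]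

/-- The kernel of the adjacency matrix over the rationals. -/
def K : Submodule ℚ (V → ℚ) := LinearMap.ker (Matrix.toLin' (G.adjMatrix ℚ))

theorem mem_K (x : V → ℚ) : x ∈ K G ↔ ∀ v, ∑ u ∈ G.neighborFinset v, x u = 0 := by
  unfold K
  rw [LinearMap.mem_ker, Matrix.toLin'_apply]
  constructor
  · intro h v
    have := congrFun h v
    rwa [adjMatrix_mulVec_apply] at this
  · intro h
    funext v
    rw [adjMatrix_mulVec_apply, h v]
    rfl

variable {G}

/-- The key lemma: a skew fort of a forest carries kernel vectors that are nonzero at any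
prescribed vertex of the fort. -/
theorem exists_kernel (hG : G.IsAcyclic) {F : Set V} (hF : IsSkewFort G F) {w : V}
    (hw : w ∈ F) : ∃ x ∈ K G, (∀ u, u ∉ F → x u = 0) ∧ x w ≠ 0 := by
  classical
  by_contra hcon
  push Not at hcon
  -- the coordinate functional is a combination of the constraints
  let L : V ⊕ {u : V // u ∉ F} → (V → ℚ) →ₗ[ℚ] ℚ :=
    Sum.elim (fun v => ∑ u ∈ G.neighborFinset v, LinearMap.proj u) fun u => LinearMap.proj u.1
  have hL1 : ∀ v x, L (Sum.inl v) x = ∑ u ∈ G.neighborFinset v, x u := by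
    intro v x
    simp [L]
  have hL2 : ∀ (u : {u : V // u ∉ F}) x, L (Sum.inr u) x = x u := fun u x => rfl
  have hspan : (LinearMap.proj w : (V → ℚ) →ₗ[ℚ] ℚ) ∈ Submodule.span ℚ (Set.range L) := by
    refine mem_span_of_iInf_ker_le_ker ?_
    intro x hx
    rw [Submodule.mem_iInf] at hx
    rw [LinearMap.mem_ker]
    show x w = 0
    refine hcon x ((mem_K G x).2 fun v => ?_) fun u hu => ?_
    · have := hx (Sum.inl v)
      rw [LinearMap.mem_ker, hL1] at this
      exact this
    · exact hx (Sum.inr ⟨u, hu⟩)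
  obtain ⟨c, hc⟩ := (Submodule.mem_span_range_iff_exists_fun ℚ).1 hspan
  let y : V → ℚ := fun v => c (Sum.inl v)
  -- coordinates of the combination
  have hcoord : ∀ u ∈ F, ∑ v ∈ G.neighborFinset u, y v = if u = w then 1 else 0 := by
    intro u hu
    have h1 : ∑ i, c i * L i (Pi.single u 1) = (Pi.single u 1 : V → ℚ) w := by
      have h0 := congrArg (fun f : (V → ℚ) →ₗ[ℚ] ℚ => f (Pi.single u 1)) hc
      simp only [LinearMap.sum_apply, LinearMap.smul_apply, smul_eq_mul,
        LinearMap.proj_apply] at h0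
      exact h0
    rw [Fintype.sum_sum_type] at h1
    simp only [hL1, hL2] at h1
    have h2 : ∀ v, c (Sum.inl v) * ∑ x ∈ G.neighborFinset v, (Pi.single u 1 : V → ℚ) x =
        if v ∈ G.neighborFinset u then y v else 0 := by
      intro v
      have h3 : ∑ x ∈ G.neighborFinset v, (Pi.single u 1 : V → ℚ) x =
          if u ∈ G.neighborFinset v then 1 else 0 := by
        simp only [Pi.single_apply, Finset.sum_ite_eq']
      rw [h3]
      simp only [mem_neighborFinset, G.adj_comm v u]
      split_ifs
      · exact mul_one _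
      · exact mul_zero _
    have h4 : ∀ x : {u : V // u ∉ F}, c (Sum.inr x) * (Pi.single u 1 : V → ℚ) x = 0 := by
      intro x
      rw [Pi.single_eq_of_ne, mul_zero]
      rintro h
      exact x.2 (h ▸ hu)
    rw [Finset.sum_congr rfl fun v _ => h2 v, Finset.sum_congr rfl fun x _ => h4 x,
      Finset.sum_const_zero, add_zero, ← Finset.sum_filter] at h1
    have h5 : (Finset.univ.filter fun v => v ∈ G.neighborFinset u) = G.neighborFinset u := by
      ext v; simp
    rw [h5] at h1
    rw [h1]
    by_cases huw : u = w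
    · subst huw; simp
    · rw [if_neg huw, Pi.single_eq_of_ne (Ne.symm huw)]
  -- a second element of the fort next to a given vertex
  have second : ∀ b a, G.Adj b a → a ∈ F → ∃ a', G.Adj b a' ∧ a' ∈ F ∧ a' ≠ a := by
    intro b a hba ha
    by_contra hno
    push Not at hno
    refine hF.2 b ?_
    rw [Set.ncard_eq_one]
    refine ⟨a, ?_⟩
    ext x
    simp only [Set.mem_inter_iff, mem_neighborSet, Set.mem_singleton_iff]
    constructor
    · rintro ⟨h1, h2⟩
      exact hno x h1 h2
    · rintro rfl
      exact ⟨hba, ha⟩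
  -- the vertices reached
  let D : Finset V := Finset.univ.filter fun a => a ∈ F ∧ ∃ b, G.Adj a b ∧ y b ≠ 0 ∧
    G.Reachable w b ∧ G.dist w a = G.dist w b + 1
  have hD : ∀ a, a ∈ D ↔ a ∈ F ∧ ∃ b, G.Adj a b ∧ y b ≠ 0 ∧
      G.Reachable w b ∧ G.dist w a = G.dist w b + 1 := by
    intro a; simp [D]
  have hDne : D.Nonempty := by
    have h1 := hcoord w hw
    rw [if_pos rfl] at h1
    obtain ⟨b, hb, hyb⟩ : ∃ b ∈ G.neighborFinset w, y b ≠ 0 := by
      by_contra hno
      push Not at hno
      rw [Finset.sum_eq_zero hno] at h1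
      exact zero_ne_one h1
    rw [mem_neighborFinset] at hb
    obtain ⟨a', ha1, ha2, ha3⟩ := second b w hb.symm hw
    have hd : G.dist w b = G.dist w w + 1 := by
      rw [SimpleGraph.dist_self, dist_eq_one_iff_adj.2 hb]
    have hd' := dist_step hG hb.reachable hb.symm ha1 (Ne.symm ha3) hd
    exact ⟨a', (hD a').2 ⟨ha2, b, ha1.symm, hyb, hb.reachable, hd'⟩⟩
  obtain ⟨a, haD, hmax⟩ := Finset.exists_max_image D (fun a => G.dist w a) hDne
  obtain ⟨haF, b, hab, hyb, hrb, hdab⟩ := (hD a).1 haD
  have haw : a ≠ w := by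
    rintro rfl
    rw [SimpleGraph.dist_self] at hdab
    omega
  have h1 := hcoord a haF
  rw [if_neg haw] at h1
  obtain ⟨b', hab', hne, hyb'⟩ : ∃ b', G.Adj a b' ∧ b' ≠ b ∧ y b' ≠ 0 := by
    by_contra hno
    push Not at hno
    rw [Finset.sum_eq_single b] at h1
    · exact hyb h1
    · intro b' hb' hne
      exact hno b' ((mem_neighborFinset _ _ _).1 hb') hne
    · intro h
      exact absurd ((mem_neighborFinset _ _ _).2 hab) h
  have hra : G.Reachable w a := hrb.trans hab.symm.reachable
  have hd1 := dist_step hG hra hab hab' (Ne.symm hne) hdab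
  obtain ⟨a', ha1, ha2, ha3⟩ := second b' a hab'.symm haF
  have hrb' : G.Reachable w b' := hra.trans hab'.reachable
  have hd2 := dist_step hG hrb' hab'.symm ha1 (Ne.symm ha3) hd1
  have ha'D : a' ∈ D := (hD a').2 ⟨ha2, b', ha1.symm, hyb', hrb', hd2⟩
  have := hmax a' ha'D
  omega

/-! ### Translation into linear algebra -/

/-- Every coordinate in `S` can be isolated. -/
def Indep (S : Set V) : Prop := ∀ u ∈ S, ∃ x ∈ K G, x u ≠ 0 ∧ ∀ u' ∈ S, u' ≠ u → x u' = 0

/-- Kernel vectors are determined by their coordinates in `S`. -/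
def Sep (S : Set V) : Prop := ∀ x ∈ K G, (∀ u ∈ S, x u = 0) → x = 0

theorem support_fort {x : V → ℚ} (hx : x ∈ K G) (h0 : x ≠ 0) : IsSkewFort G {v | x v ≠ 0} := by
  classical
  refine ⟨?_, fun v hv => ?_⟩
  · by_contra hno
    rw [Set.not_nonempty_iff_eq_empty] at hno
    apply h0
    funext v
    by_contra hv
    have : v ∈ {v | x v ≠ 0} := hv
    rw [hno] at this
    exact this
  · rw [Set.ncard_eq_one] at hv
    obtain ⟨a, ha⟩ := hv
    have h1 := (mem_K G x).1 hx v
    have haa : a ∈ G.neighborSet v ∩ {v | x v ≠ 0} := by rw [ha]; rfl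
    rw [Finset.sum_eq_single a] at h1
    · exact haa.2 h1
    · intro b hb hba
      by_contra hxb
      have : b ∈ G.neighborSet v ∩ {v | x v ≠ 0} := ⟨(mem_neighborFinset _ _ _).1 hb, hxb⟩
      rw [ha] at this
      exact hba this
    · intro h
      exact absurd ((mem_neighborFinset _ _ _).2 haa.1) h

theorem irSet_iff (hG : G.IsAcyclic) (S : Set V) : IsIrSet G S ↔ Indep (G := G) S := by
  constructor
  · intro h u hu
    obtain ⟨F, hF, hFS⟩ := h u hu
    have huF : u ∈ F ∩ S := by rw [hFS]; rfl
    obtain ⟨x, hxK, hx1, hx2⟩ := exists_kernel hG hF huF.1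
    refine ⟨x, hxK, hx2, fun u' hu' hne => hx1 u' fun hu'F => ?_⟩
    have : u' ∈ F ∩ S := ⟨hu'F, hu'⟩
    rw [hFS] at this
    exact hne this
  · intro h u hu
    obtain ⟨x, hxK, hx1, hx2⟩ := h u hu
    refine ⟨{v | x v ≠ 0}, support_fort hxK (fun h0 => hx1 (by rw [h0]; rfl)), ?_⟩
    ext v
    constructor
    · rintro ⟨hv1, hv2⟩
      by_contra hne
      exact hv1 (hx2 v hv2 hne)
    · rintro rfl
      exact ⟨hx1, hu⟩

theorem forcing_iff (hG : G.IsAcyclic) (S : Set V) : IsSkewForcing G S ↔ Sep (G := G) S := by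
  classical
  constructor
  · intro h x hxK hxS
    funext v
    have key : ∀ v, Blue G S v → x v = 0 := by
      intro v hv
      induction hv with
      | base v hv => exact hxS v hv
      | force u w huw _ ih =>
        have h1 := (mem_K G x).1 hxK u
        rw [Finset.sum_eq_single w] at h1
        · exact h1
        · intro b hb hbw
          exact ih b ((mem_neighborFinset _ _ _).1 hb) hbw
        · intro h
          exact absurd ((mem_neighborFinset _ _ _).2 huw) h
    exact key v (h v)
  · intro h
    by_contra hno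
    -- the white vertices form a fort
    have hW : IsSkewFort G {v | ¬ Blue G S v} := by
      refine ⟨?_, fun v hv => ?_⟩
      · unfold IsSkewForcing at hno
        push Not at hno
        exact hno
      · rw [Set.ncard_eq_one] at hv
        obtain ⟨a, ha⟩ := hv
        have haa : a ∈ G.neighborSet v ∩ {v | ¬ Blue G S v} := by rw [ha]; rfl
        refine haa.2 (Blue.force v a haa.1 fun x hx hxa => ?_)
        by_contra hxb
        have : x ∈ G.neighborSet v ∩ {v | ¬ Blue G S v} := ⟨hx, hxb⟩
        rw [ha] at this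
        exact hxa this
    obtain ⟨w, hw⟩ := hW.1
    obtain ⟨x, hxK, hx1, hx2⟩ := exists_kernel hG hW hw
    refine hx2 ?_
    rw [h x hxK fun u hu => hx1 u fun hb => hb (Blue.base u hu)]
    rfl

/-- Restriction of kernel vectors to `S`. -/
def res (S : Set V) : K G →ₗ[ℚ] (S → ℚ) where
  toFun x u := x.1 u.1
  map_add' _ _ := rfl
  map_smul' _ _ := rfl

theorem le_ncard_of_sep {S : Set V} (h : Sep (G := G) S) : finrank ℚ (K G) ≤ S.ncard := by
  classical
  have hinj : Function.Injective (res (G := G) S) := by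
    rw [injective_iff_map_eq_zero]
    intro x hx
    exact Subtype.ext (h x.1 x.2 fun u hu => congrFun hx ⟨u, hu⟩)
  have h1 := LinearMap.finrank_le_finrank_of_injective hinj
  rwa [finrank_fintype_fun_eq_card, ← Nat.card_eq_fintype_card, Nat.card_coe_set_eq] at h1

theorem ncard_le_of_indep {S : Set V} (h : Indep (G := G) S) : S.ncard ≤ finrank ℚ (K G) := by
  classical
  have hsurj : Function.Surjective (res (G := G) S) := by
    rw [← LinearMap.range_eq_top, eq_top_iff]
    intro f _
    have hf : f = ∑ u : S, f u • (Pi.single u 1 : S → ℚ) := by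
      funext v
      rw [Finset.sum_apply]
      simp [Pi.single_apply]
    rw [hf]
    refine Submodule.sum_mem _ fun u _ => Submodule.smul_mem _ _ ?_
    obtain ⟨x, hxK, hx1, hx2⟩ := h u.1 u.2
    refine ⟨(x u.1)⁻¹ • ⟨x, hxK⟩, ?_⟩
    funext v
    show (x u.1)⁻¹ * x v.1 = _
    by_cases hv : v = u
    · subst hv
      rw [Pi.single_eq_same, inv_mul_cancel₀ hx1]
    · rw [Pi.single_eq_of_ne hv, hx2 v.1 v.2 fun h => hv (Subtype.ext h), mul_zero]
  have h1 := LinearMap.finrank_le_finrank_of_surjective hsurj
  rwa [finrank_fintype_fun_eq_card, ← Nat.card_eq_fintype_card, Nat.card_coe_set_eq] at h1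

theorem sep_of_maximal {S : Set V} (h : Maximal (Indep (G := G)) S) : Sep (G := G) S := by
  intro x hxK hxS
  by_contra hx0
  obtain ⟨v, hv⟩ : ∃ v, x v ≠ 0 := by
    by_contra hno
    push Not at hno
    exact hx0 (funext hno)
  have hvS : v ∉ S := fun hvS => hv (hxS v hvS)
  have hins : Indep (G := G) (insert v S) := by
    intro u hu
    rcases hu with rfl | hu
    · refine ⟨x, hxK, hv, fun u' hu' hne => ?_⟩
      rcases hu' with rfl | hu'
      · exact absurd rfl hne
      · exact hxS u' hu'
    · obtain ⟨z, hzK, hz1, hz2⟩ := h.1 u hu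
      have huv : u ≠ v := fun h => hvS (h ▸ hu)
      refine ⟨z - (z v / x v) • x, (K G).sub_mem hzK ((K G).smul_mem _ hxK), ?_, ?_⟩
      · rw [Pi.sub_apply, Pi.smul_apply, hxS u hu, smul_zero, sub_zero]
        exact hz1
      · intro u' hu' hne
        rcases hu' with rfl | hu'
        · rw [Pi.sub_apply, Pi.smul_apply, smul_eq_mul, div_mul_cancel₀ _ hv, sub_self]
        · rw [Pi.sub_apply, Pi.smul_apply, hxS u' hu', smul_zero, sub_zero]
          exact hz2 u' hu' hne
  have := h.2 hins (Set.subset_insert v S) (Set.mem_insert v S)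
  exact hvS this

theorem indep_of_minimal {S : Set V} (h : Minimal (Sep (G := G)) S) : Indep (G := G) S := by
  intro u hu
  by_contra hno
  push Not at hno
  have hsep : Sep (G := G) (S \ {u}) := by
    intro x hxK hxS
    refine h.1 x hxK fun u' hu' => ?_
    by_cases huu : u' = u
    · subst huu
      by_contra hx
      obtain ⟨v, hv1, hv2, hv3⟩ := hno x hxK hx
      exact hv3 (hxS v ⟨hv1, hv2⟩)
    · exact hxS u' ⟨hu', huu⟩
  have := h.2 hsep Set.sdiff_subset hu
  exact this.2 rfl

theorem indep_empty : Indep (G := G) (∅ : Set V) := fun u hu => absurd hu (Set.notMem_empty u)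

theorem sep_univ : Sep (G := G) (Set.univ : Set V) := by
  intro x _ h
  funext v
  exact h v trivial

end forest

/-- For every forest the four parameters agree; their common value is the nullity (number of
vertices minus rank) of the adjacency matrix. -/
theorem result : ∀ (V : Type) [Fintype V] [DecidableEq V] [Nonempty V] (G : SimpleGraph V)
    [DecidableRel G.Adj], G.IsAcyclic →
    zMinusIrLower G = zMinus G ∧ zMinus G = zMinusUpper G ∧
    zMinusUpper G = zMinusIrUpper G ∧
    zMinusIrUpper G + (G.adjMatrix ℚ).rank = Fintype.card V := by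
  classical
  intro V _ _ _ G _ hG
  have e1 : IsIrSet G = Indep (G := G) := funext fun S => propext (irSet_iff hG S)
  have e2 : IsSkewForcing G = Sep (G := G) := funext fun S => propext (forcing_iff hG S)
  have hmax : ∀ S : Set V, Maximal (Indep (G := G)) S → S.ncard = finrank ℚ (K G) := by
    intro S hS
    exact le_antisymm (ncard_le_of_indep hS.1) (le_ncard_of_sep (sep_of_maximal hS))
  have hmin : ∀ S : Set V, Minimal (Sep (G := G)) S → S.ncard = finrank ℚ (K G) := by
    intro S hS
    exact le_antisymm (ncard_le_of_indep (indep_of_minimal hS)) (le_ncard_of_sep hS.1)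
  obtain ⟨S₁, -, hS₁⟩ := Set.Finite.exists_le_maximal (Set.toFinite {S | Indep (G := G) S})
    (indep_empty (G := G))
  obtain ⟨S₂, -, hS₂⟩ := Set.Finite.exists_le_minimal (Set.toFinite {S | Sep (G := G) S})
    (sep_univ (G := G))
  have hIrSet : {k | ∃ S : Set V, Maximal (IsIrSet G) S ∧ S.ncard = k} =
      {finrank ℚ (K G)} := by
    rw [e1]
    ext k
    constructor
    · rintro ⟨S, hS, rfl⟩
      exact hmax S hS
    · rintro rfl
      exact ⟨S₁, hS₁, hmax S₁ hS₁⟩
  have hUpSet : {k | ∃ S : Set V, Minimal (IsSkewForcing G) S ∧ S.ncard = k} =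
      {finrank ℚ (K G)} := by
    rw [e2]
    ext k
    constructor
    · rintro ⟨S, hS, rfl⟩
      exact hmin S hS
    · rintro rfl
      exact ⟨S₂, hS₂, hmin S₂ hS₂⟩
  have h1 : zMinusIrLower G = finrank ℚ (K G) := by
    unfold zMinusIrLower
    rw [hIrSet, csInf_singleton]
  have h2 : zMinusIrUpper G = finrank ℚ (K G) := by
    unfold zMinusIrUpper
    rw [hIrSet, csSup_singleton]
  have h3 : zMinusUpper G = finrank ℚ (K G) := by
    unfold zMinusUpper
    rw [hUpSet, csSup_singleton]
  have h4 : zMinus G = finrank ℚ (K G) := by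
    unfold zMinus
    rw [e2]
    refine le_antisymm (Nat.sInf_le ⟨S₂, hS₂.1, hmin S₂ hS₂⟩) ?_
    refine le_csInf ⟨_, S₂, hS₂.1, rfl⟩ ?_
    rintro k ⟨S, hS, rfl⟩
    exact le_ncard_of_sep hS
  refine ⟨by rw [h1, h4], by rw [h4, h3], by rw [h3, h2], ?_⟩
  rw [h2]
  have h5 := LinearMap.finrank_range_add_finrank_ker (Matrix.toLin' (G.adjMatrix ℚ))
  rw [finrank_fintype_fun_eq_card] at h5
  have h6 : (G.adjMatrix ℚ).rank = finrank ℚ (LinearMap.range (Matrix.toLin' (G.adjMatrix ℚ))) :=
    rfl
  rw [h6, ← h5, add_comm]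
  rfl

end Pool.Agent.Results.MP_aa1485_co.Forests
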